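import Pool.Agent.Y734.M.StmsN

/-!
# Job SUN: the normalised determinants of an integral point (helper475)
-/

set_option autoImplicit false

namespace Pool.Agent.Y734.M.SUN

open Pool.Agent.Y734.M NumberField

variable {L : Type} [Field L]

theorem ne012 (n : ℕ) : (0 : Fin (n + 3)) ≠ 1 ∧ (0 : Fin (n + 3)) ≠ 2 ∧
    (1 : Fin (n + 3)) ≠ 2 := by
  have v0 : ((0 : Fin (n + 3)) : ℕ) = 0 := rfl
  have v1 : ((1 : Fin (n + 3)) : ℕ) = 1 := Nat.mod_eq_of_lt (show 1 < n + 3 by omega)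
  have v2 : ((2 : Fin (n + 3)) : ℕ) = 2 := Nat.mod_eq_of_lt (show 2 < n + 3 by omega)
  refine ⟨fun h => ?_, fun h => ?_, fun h => ?_⟩
  · have h1 := congrArg Fin.val h
    rw [v0, v1] at h1
    omega
  · have h1 := congrArg Fin.val h
    rw [v0, v2] at h1
    omega
  · have h1 := congrArg Fin.val h
    rw [v1, v2] at h1
    omega

theorem dt_swap (A B : Fin 2 → L) : dt A B = - dt B A := by
  unfold dt
  ring

theorem SU_one (S : Finset ℕ) : SU S (1 : L) := by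
  refine ⟨one_ne_zero, 0, ?_, ?_⟩ <;> simp [isIntegral_one]

theorem SU_neg {S : Finset ℕ} {a : L} (h : SU S a) : SU S (-a) := by
  obtain ⟨h0, m, h1, h2⟩ := h
  refine ⟨neg_ne_zero.2 h0, m, ?_, ?_⟩
  · rw [mul_neg]
    exact h1.neg
  · rw [inv_neg, mul_neg]
    exact h2.neg

theorem SU_mul {S : Finset ℕ} {a b : L} (h : SU S a) (h' : SU S b) : SU S (a * b) := by
  obtain ⟨h0, m, h1, h2⟩ := h
  obtain ⟨h0', m', h1', h2'⟩ := h'
  refine ⟨mul_ne_zero h0 h0', m + m', ?_, ?_⟩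
  · have e : (∏ p ∈ S, (p : L)) ^ (m + m') * (a * b) =
        ((∏ p ∈ S, (p : L)) ^ m * a) * ((∏ p ∈ S, (p : L)) ^ m' * b) := by
      rw [pow_add]
      ring
    rw [e]
    exact h1.mul h1'
  · have e : (∏ p ∈ S, (p : L)) ^ (m + m') * (a * b)⁻¹ =
        ((∏ p ∈ S, (p : L)) ^ m * a⁻¹) * ((∏ p ∈ S, (p : L)) ^ m' * b⁻¹) := by
      rw [pow_add, mul_inv]
      ring
    rw [e]
    exact h2.mul h2'

section nwlemmas

variable {n : ℕ} {P : Fin (n + 3) → Fin 2 → L}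

theorem nw_swap (i j : Fin (n + 3)) : nw P i j = - nw P j i := by
  unfold nw
  rw [dt_swap (P i) (P j)]
  ring

theorem sc_ne (hN : Nd P) (i : Fin (n + 3)) : sc P i ≠ 0 := by
  obtain ⟨h01, h02, h12⟩ := ne012 n
  unfold sc
  split_ifs with h
  · exact hN 1 2 h12
  · exact div_ne_zero (mul_ne_zero (hN 0 1 h01) (hN 0 2 h02)) (hN 0 i (Ne.symm h))

theorem nw_zero (hN : Nd P) (i : Fin (n + 3)) (hi : i ≠ 0) : nw P 0 i = 1 := by
  obtain ⟨h01, h02, h12⟩ := ne012 n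
  have a := hN 0 1 h01
  have b := hN 0 2 h02
  have c := hN 1 2 h12
  have d := hN 0 i hi.symm
  unfold nw sc
  rw [if_pos rfl, if_neg hi]
  field_simp

/-- the normalised determinants of two of the other points -/
theorem nw_ne (hN : Nd P) (i j : Fin (n + 3)) (hi : i ≠ 0) (hj : j ≠ 0) :
    nw P i j = dt (P 0) (P 1) * dt (P 0) (P 2) * dt (P i) (P j) /
      (dt (P 0) (P i) * dt (P 0) (P j) * dt (P 1) (P 2)) := by
  obtain ⟨h01, h02, h12⟩ := ne012 n
  have a := hN 0 1 h01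
  have b := hN 0 2 h02
  have c := hN 1 2 h12
  have d := hN 0 i hi.symm
  have e := hN 0 j hj.symm
  unfold nw sc
  rw [if_neg hi, if_neg hj]
  field_simp

theorem nw_one_two (hN : Nd P) : nw P 1 2 = 1 := by
  obtain ⟨h01, h02, h12⟩ := ne012 n
  have a := hN 0 1 h01
  have b := hN 0 2 h02
  have c := hN 1 2 h12
  rw [nw_ne hN 1 2 h01.symm h02.symm]
  field_simp

theorem nw_one (hN : Nd P) (j : Fin (n + 3)) (h0 : j ≠ 0) :
    nw P 1 j = cr P 0 2 j 1 := by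
  obtain ⟨h01, h02, h12⟩ := ne012 n
  have a := hN 0 1 h01
  have b := hN 0 2 h02
  have c := hN 1 2 h12
  have d := hN 0 j h0.symm
  rw [nw_ne hN 1 j h01.symm h0]
  unfold cr
  rw [dt_swap (P j) (P 1), dt_swap (P 2) (P 1)]
  field_simp

theorem nw_gen (hN : Nd P) (i j : Fin (n + 3)) (hi0 : i ≠ 0) (hi1 : i ≠ 1) (hj0 : j ≠ 0) :
    nw P i j = - (cr P 0 1 j i * nw P 1 i) := by
  obtain ⟨h01, h02, h12⟩ := ne012 n
  have a := hN 0 1 h01
  have b := hN 0 2 h02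
  have c := hN 1 2 h12
  have d := hN 0 j hj0.symm
  have e := hN 0 i hi0.symm
  have f := hN 1 i hi1.symm
  rw [nw_ne hN i j hi0 hj0, nw_ne hN 1 i h01.symm hi0]
  unfold cr
  rw [dt_swap (P i) (P j)]
  field_simp

theorem inj4 {α : Type} (a b c d : α) (hab : a ≠ b) (hac : a ≠ c) (had : a ≠ d) (hbc : b ≠ c)
    (hbd : b ≠ d) (hcd : c ≠ d) : Function.Injective ![a, b, c, d] := by
  intro x y h
  fin_cases x <;> fin_cases y <;> simp_all

theorem SU_cr {S : Finset ℕ} (h : IP S P) (a b c d : Fin (n + 3)) (hab : a ≠ b) (hac : a ≠ c)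
    (had : a ≠ d) (hbc : b ≠ c) (hbd : b ≠ d) (hcd : c ≠ d) : SU S (cr P a b c d) := by
  have := h.2 ![a, b, c, d] (inj4 a b c d hab hac had hbc hbd hcd)
  simpa using this

theorem SU_one' {S : Finset ℕ} (h : IP S P) (j : Fin (n + 3)) (h0 : j ≠ 0) (h1 : j ≠ 1) :
    SU S (nw P 1 j) := by
  obtain ⟨h01, h02, h12⟩ := ne012 n
  by_cases h2 : j = 2
  · rw [h2, nw_one_two h.1]
    exact SU_one S
  · rw [nw_one h.1 j h0]
    exact SU_cr h 0 2 j 1 h02 h0.symm h01 (Ne.symm h2) h12.symm h1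

theorem SU_nw {S : Finset ℕ} (h : IP S P) (i j : Fin (n + 3)) (hij : i ≠ j) :
    SU S (nw P i j) := by
  obtain ⟨h01, h02, h12⟩ := ne012 n
  by_cases hi0 : i = 0
  · rw [hi0] at hij ⊢
    rw [nw_zero h.1 j hij.symm]
    exact SU_one S
  by_cases hj0 : j = 0
  · rw [hj0] at hij ⊢
    rw [nw_swap, nw_zero h.1 i hij]
    exact SU_neg (SU_one S)
  by_cases hi1 : i = 1
  · rw [hi1] at hij ⊢
    exact SU_one' h j hj0 hij.symm
  by_cases hj1 : j = 1
  · rw [hj1] at hij ⊢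
    rw [nw_swap]
    exact SU_neg (SU_one' h i hi0 hij)
  rw [nw_gen h.1 i j hi0 hi1 hj0]
  exact SU_neg (SU_mul (SU_cr h 0 1 j i h01 (Ne.symm hj0) (Ne.symm hi0) (Ne.symm hj1)
    (Ne.symm hi1) hij.symm) (SU_one' h i hi0 hi1))

end nwlemmas

theorem norm_rat [NumberField L] (h : Module.finrank ℚ L = 2) (q : ℚ) :
    Algebra.norm ℚ (q : L) = q ^ 2 := by
  have := Algebra.norm_algebraMap (R := ℚ) (S := L) q
  rw [h] at this
  exact this

theorem norm_neg' [NumberField L] (h : Module.finrank ℚ L = 2) (x : L) :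
    Algebra.norm ℚ (-x) = Algebra.norm ℚ x := by
  have e : -x = ((-1 : ℚ) : L) * x := by push_cast; ring
  rw [e, map_mul, norm_rat h]
  norm_num

/-- the norm of an integral element is an integer -/
theorem norm_int [NumberField L] (x : L) (hx : IsIntegral ℤ x) :
    ∃ z : ℤ, Algebra.norm ℚ x = z := by
  have h1 : IsIntegral ℤ (Algebra.norm ℚ x) := Algebra.isIntegral_norm ℚ hx
  obtain ⟨z, hz⟩ := IsIntegrallyClosed.isIntegral_iff.1 h1
  exact ⟨z, by rw [← hz]; rfl⟩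

theorem val_nonneg [NumberField L] (h : Module.finrank ℚ L = 2) (S : Finset ℕ)
    (hS : ∀ p ∈ S, p.Prime) (p : ℕ) (hp : p.Prime) (hpS : p ∉ S) (a : L) (ha : a ≠ 0) (m : ℕ)
    (hm : IsIntegral ℤ ((∏ p ∈ S, (p : L)) ^ m * a)) : 0 ≤ padicValRat p (Algebra.norm ℚ a) := by
  have : Fact p.Prime := ⟨hp⟩
  obtain ⟨z, hz⟩ := norm_int _ hm
  have hN : (∏ p ∈ S, (p : L)) ^ m = (((∏ p ∈ S, p) ^ m : ℕ) : ℚ) := by push_cast; rfl
  have hpN : ¬ p ∣ (∏ p ∈ S, p) ^ m := by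
    intro hd
    obtain ⟨q, hq, hpq⟩ := (hp.prime.dvd_finsetProd_iff _).1 (hp.dvd_of_dvd_pow hd)
    have : p = q := (Nat.prime_dvd_prime_iff_eq hp (hS q hq)).1 hpq
    exact hpS (this ▸ hq)
  have hN0 : (((∏ p ∈ S, p) ^ m : ℕ) : ℚ) ≠ 0 := by
    intro h0
    apply hpN
    have : (∏ p ∈ S, p) ^ m = 0 := by exact_mod_cast h0
    rw [this]
    exact dvd_zero p
  have ha' : Algebra.norm ℚ a ≠ 0 := Algebra.norm_ne_zero_iff.2 ha
  rw [hN, map_mul, norm_rat h] at hz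
  have hv := congrArg (padicValRat p) hz
  rw [padicValRat.mul (pow_ne_zero 2 hN0) ha', padicValRat.pow, padicValRat.of_nat,
    padicValNat.eq_zero_of_not_dvd hpN, padicValRat.of_int] at hv
  simp only [Nat.cast_zero, mul_zero, zero_add] at hv
  rw [hv]
  positivity

theorem val_zero [NumberField L] (h : Module.finrank ℚ L = 2) (S : Finset ℕ)
    (hS : ∀ p ∈ S, p.Prime) (p : ℕ) (hp : p.Prime) (hpS : p ∉ S) (a : L) (ha : SU S a) :
    padicValRat p (Algebra.norm ℚ a) = 0 := by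
  have : Fact p.Prime := ⟨hp⟩
  obtain ⟨h0, m, h1, h2⟩ := ha
  have e1 := val_nonneg h S hS p hp hpS a h0 m h1
  have e2 := val_nonneg h S hS p hp hpS a⁻¹ (inv_ne_zero h0) m h2
  have e3 : Algebra.norm ℚ a⁻¹ = (Algebra.norm ℚ a)⁻¹ := by
    refine eq_inv_of_mul_eq_one_left ?_
    rw [← map_mul, inv_mul_cancel₀ h0, map_one]
  rw [e3, padicValRat.inv] at e2
  linarith

theorem sun (hg : G5nStmt)
    (hs : ∀ (u : Fin 5 → Fin 5 → ℚ) (t : Fin 5 → ℚ) (c : ℚ),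
      G5 (fun i j => c * t i * t j * u i j) = c ^ 5 * (∏ i, t i) ^ 2 * G5 u) : SunStmt := by
  intro S hS L _ _ h n P hP
  have hsu : ∀ i j, i ≠ j → SU S (nw P i j) := SU_nw hP
  refine ⟨fun i j => ?_, fun i j hij => ?_, fun i hi => ?_, ?_, fun i j hij p hp hpS => ?_,
    fun f _ => ?_⟩
  · unfold nu
    rw [nw_swap i j, norm_neg' h]
  · exact Algebra.norm_ne_zero_iff.2 (hsu i j hij).1
  · unfold nu
    rw [nw_zero hP.1 i hi, map_one]
  · unfold nu
    rw [nw_one_two hP.1, map_one]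
  · exact val_zero h S hS p hp hpS _ (hsu i j hij)
  · have e : pull (nu P) f = fun i j =>
        Algebra.norm ℚ (dt (P 0) (P 1) * dt (P 0) (P 2) * dt (P 1) (P 2))⁻¹ *
          Algebra.norm ℚ (sc P (f i)) * Algebra.norm ℚ (sc P (f j)) *
            (fun i j => Algebra.norm ℚ (dt (P (f i)) (P (f j)))) i j := by
      funext i j
      unfold pull nu nw
      rw [← map_mul, ← map_mul, ← map_mul]
      congr 1
      rw [div_eq_mul_inv]
      ring
    rw [e, hs _ (fun i => Algebra.norm ℚ (sc P (f i))), hg L h (fun i => P (f i)), mul_zero]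

end Pool.Agent.Y734.M.SUN
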